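import Pool.Agent.H44.GT.Targets

/-!
# A monotone function is Lipschitz on a compact set of positive measure (row U_MON)
-/

set_option autoImplicit false

namespace Pool.Agent.H42.GD

open Pool.Agent.H44.DU MeasureTheory Filter Topology

/-- The points with the explicit bound `N` on the difference quotients. -/
def kN (K : Set ℝ) (x : ℝ → ℝ) (N : ℕ) : Set ℝ :=
  {t | t ∈ K ∧ ∀ t' ∈ K, |t' - t| < 1 / ((N : ℝ) + 1) → |x t' - x t| ≤ N * |t' - t|}

lemma mem_kN {K : Set ℝ} {x : ℝ → ℝ} {t : ℝ} (ht : t ∈ K)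
    (hd : DifferentiableWithinAt ℝ x K t) : ∃ N, t ∈ kN K x N := by
  obtain ⟨c, hc⟩ := hd.isBigO_sub.bound
  rw [Filter.Eventually, Metric.mem_nhdsWithin_iff] at hc
  obtain ⟨ε, hε, hb⟩ := hc
  obtain ⟨N, hN⟩ := exists_nat_gt (max c (1 / ε))
  have h1 : c < N := (le_max_left _ _).trans_lt hN
  have h2 : 1 / ε < N := (le_max_right _ _).trans_lt hN
  refine ⟨N, ht, fun t' ht' hlt => ?_⟩
  have h3 : |t' - t| < ε := by
    refine hlt.trans_le ?_
    rw [div_le_iff₀ (by positivity)]
    rw [div_lt_iff₀ hε] at h2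
    nlinarith
  have h4 : t' ∈ Metric.ball t ε ∩ K := ⟨by rwa [Metric.mem_ball, Real.dist_eq], ht'⟩
  have h5 := hb h4
  simp only [Set.mem_ofPred_eq, Real.norm_eq_abs] at h5
  exact h5.trans (mul_le_mul_of_nonneg_right h1.le (abs_nonneg _))

theorem pf_U_MON : U_MON := by
  intro K x hK hpos hm
  have hae := hm.ae_differentiableWithinAt_of_mem
  -- some set `kN` has positive measure
  have hN : ∃ N, 0 < volume (kN K x N) := by
    by_contra hcon
    push Not at hcon
    have hz : volume (⋃ N, kN K x N) = 0 :=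
      measure_iUnion_null fun N => le_antisymm (hcon N) bot_le
    have hz2 : volume {t | ¬ (t ∈ K → DifferentiableWithinAt ℝ x K t)} = 0 := hae
    have hsub : K ⊆ (⋃ N, kN K x N) ∪ {t | ¬ (t ∈ K → DifferentiableWithinAt ℝ x K t)} := by
      intro t ht
      by_cases hd : DifferentiableWithinAt ℝ x K t
      · obtain ⟨N, h⟩ := mem_kN ht hd
        exact Or.inl (Set.mem_iUnion.2 ⟨N, h⟩)
      · exact Or.inr fun h => hd (h ht)
    have := measure_mono_null hsub (measure_union_null hz hz2)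
    exact absurd this hpos.ne'
  obtain ⟨N, hN⟩ := hN
  set δ : ℝ := 1 / (2 * ((N : ℝ) + 1)) with hδ
  have hδ0 : 0 < δ := by positivity
  -- some piece has positive measure
  have hk : ∃ k : ℤ, 0 < volume (kN K x N ∩ Set.Icc (k * δ) ((k + 1) * δ)) := by
    by_contra hcon
    push Not at hcon
    have hz : volume (⋃ k : ℤ, kN K x N ∩ Set.Icc (k * δ) ((k + 1) * δ)) = 0 :=
      measure_iUnion_null fun k => le_antisymm (hcon k) bot_le
    have hsub : kN K x N ⊆ ⋃ k : ℤ, kN K x N ∩ Set.Icc (k * δ) ((k + 1) * δ) := by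
      intro t ht
      refine Set.mem_iUnion.2 ⟨⌊t / δ⌋, ht, ?_, ?_⟩
      · rw [← le_div_iff₀ hδ0]; exact Int.floor_le _
      · rw [← div_le_iff₀ hδ0]; exact (Int.lt_floor_add_one _).le
    exact absurd (measure_mono_null hsub hz) hN.ne'
  obtain ⟨k, hk⟩ := hk
  set A : Set ℝ := kN K x N ∩ Set.Icc (k * δ) ((k + 1) * δ) with hA
  have hclI : closure A ⊆ Set.Icc (k * δ) ((k + 1) * δ) :=
    closure_minimal Set.inter_subset_right isClosed_Icc
  have hclose : ∀ t ∈ closure A, ∀ s ∈ A, |t - s| < 1 / ((N : ℝ) + 1) := by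
    intro t ht s hs
    have h1 := hclI ht
    have h2 := hs.2
    have h3 : δ < 1 / ((N : ℝ) + 1) := by
      rw [hδ]
      apply one_div_lt_one_div_of_lt (by positivity)
      have : (0 : ℝ) ≤ N := Nat.cast_nonneg N
      linarith
    refine lt_of_le_of_lt ?_ h3
    rw [abs_le]
    constructor
    · have := h1.1; have := h2.2; nlinarith
    · have := h1.2; have := h2.1; nlinarith
  have hLip : ∀ t ∈ closure A ∩ K, ∀ t' ∈ closure A ∩ K, |x t' - x t| ≤ N * |t' - t| := by
    intro t ht t' ht'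
    refine le_of_forall_pos_le_add fun ε hε => ?_
    have hη : 0 < ε / (2 * ((N : ℝ) + 1)) := by positivity
    obtain ⟨s, hs, hd⟩ := Metric.mem_closure_iff.1 ht.1 _ hη
    rw [Real.dist_eq] at hd
    have e1 := hs.1.2 t ht.2 (hclose t ht.1 s hs)
    have e2 := hs.1.2 t' ht'.2 (hclose t' ht'.1 s hs)
    have e3 : |x t' - x t| ≤ |x t' - x s| + |x t - x s| := by
      rw [abs_sub_comm (x t) (x s)]
      exact abs_sub_le _ _ _
    have e4 : |t' - s| ≤ |t' - t| + |t - s| := abs_sub_le _ _ _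
    have e5 : (N : ℝ) * |t - s| * 2 ≤ ε := by
      have h6 : |t - s| * (2 * ((N : ℝ) + 1)) < ε := by
        rwa [lt_div_iff₀ (by positivity)] at hd
      have h7 : 0 ≤ |t - s| := abs_nonneg _
      nlinarith
    have e6 : (N : ℝ) * |t' - s| ≤ N * (|t' - t| + |t - s|) :=
      mul_le_mul_of_nonneg_left e4 (Nat.cast_nonneg N)
    nlinarith
  have hB : NullMeasurableSet (closure A ∩ K) volume :=
    isClosed_closure.measurableSet.nullMeasurableSet.inter hK
  have hBpos : 0 < volume (closure A ∩ K) :=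
    hk.trans_le (measure_mono fun t ht => ⟨subset_closure ht, ht.1.1⟩)
  obtain ⟨B', hB', hBm, hBe⟩ := hB.exists_measurable_subset_ae_eq
  have hB'pos : 0 < volume B' := by rwa [measure_congr hBe]
  obtain ⟨K', hK', hKc, hKp⟩ := hBm.exists_lt_isCompact hB'pos
  refine ⟨K', fun t ht => (hB' (hK' ht)).2, hKc, hKp, N, fun t ht t' ht' hle => ?_⟩
  have h := hLip t (hB' (hK' ht)) t' (hB' (hK' ht'))
  rw [abs_of_nonneg (sub_nonneg.2 hle)] at h
  exact (le_abs_self _).trans h

end Pool.Agent.H42.GD
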