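import Pool.Agent.H44.GT.Targets

/-!
# Unique ergodicity (row U_UE)
-/

set_option autoImplicit false

namespace Pool.Agent.H42.GD

open Pool.Agent.H44.DU

lemma om_left {n : ℕ} (a₁ a₂ a₃ : ℝ) (c₁ c₂ c₃ c : Side n → ℝ) :
    Surf.Om (fun s => a₁ * c₁ s + a₂ * c₂ s + a₃ * c₃ s) c =
      a₁ * Surf.Om c₁ c + a₂ * Surf.Om c₂ c + a₃ * Surf.Om c₃ c := by
  simp only [Surf.Om, Finset.mul_sum, ← Finset.sum_add_distrib]
  refine Finset.sum_congr rfl fun i _ => ?_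
  ring

lemma om_right {n : ℕ} (a₁ a₂ a₃ : ℝ) (c₁ c₂ c₃ c : Side n → ℝ) :
    Surf.Om c (fun s => a₁ * c₁ s + a₂ * c₂ s + a₃ * c₃ s) =
      a₁ * Surf.Om c c₁ + a₂ * Surf.Om c c₂ + a₃ * Surf.Om c c₃ := by
  simp only [Surf.Om, Finset.mul_sum, ← Finset.sum_add_distrib]
  refine Finset.sum_congr rfl fun i _ => ?_
  ring

theorem pf_U_UE (hG1 : G_1) (hG2 : G_2) (hW : W_2) (hD : U_DEN) (hE : U_EQ) (hC : M_COC) :
    U_UE := by
  intro n S hc ht hp hn t c p p' cβ hn0 hk hno hm hm' ho ho' hcβ hoβ h1 h2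
  obtain ⟨r, hr⟩ := hp
  have hc1 : S.Coc (S.cc t p) := hC n S t p hm.im
  have hc2 : S.Coc (S.cc t p') := hC n S t p' hm'.im
  obtain ⟨a₁, a₂, a₃, κ, φ, hφ, hne, hid⟩ :=
    hG1 n S hc ht hn r hr (S.cc t p) (S.cc t p') cβ hc1 hc2 hcβ ho ho' hoβ
  have hfun : (fun s => a₁ * S.cc t p s + a₂ * S.cc t p' s + a₃ * cβ s) =
      Surf.coh r φ κ := funext hid
  have e1 := (hG2 n S r φ κ hr hφ (S.cc t p) hc1 ho).2
  rw [← hfun, om_right, hW n S t p p hm.im hm.im, hW n S t p p' hm.im hm'.im, h1] at e1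
  have ha3 : a₃ = 0 := by linarith
  have e2 := (hG2 n S r φ κ hr hφ cβ hcβ hoβ).1
  rw [← hfun, om_left, h1, h2, ha3] at e2
  have ha1 : a₁ = -a₂ := by linarith
  have ha2 : a₂ ≠ 0 := by
    intro h
    rcases hne with h' | h' | h'
    · exact h' (by rw [ha1, h]; ring)
    · exact h' h
    · exact h' ha3
  have hdiff : ∀ s, S.cc t p' s - S.cc t p s =
      Surf.coh r (fun s => φ s / a₂) (κ / a₂) s := by
    intro s
    have h := hid s
    rw [ha1, ha3] at h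
    simp only [Surf.coh] at h ⊢
    field_simp
    linarith
  have hφ' : S.VF (fun s => φ s / a₂) := fun c => by
    show φ (nx (S.gl c)) / a₂ = φ c / a₂
    rw [hφ c]
  by_cases hκ : κ / a₂ = 0
  · rw [hκ] at hdiff
    exact hE n S t p p' r (fun s => φ s / a₂) hc hk.ok.gd hk.tmin hφ' hm hm' hdiff
  · obtain ⟨f, hf, hf'⟩ := hD n S t p p' r (fun s => φ s / a₂) (κ / a₂) hn0 hk.ok.gd hr hφ'
      hm.im hm'.im hκ hdiff
    exact absurd hf' (hno f hf)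

end Pool.Agent.H42.GD
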